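import Pool.Agent.Lib.MP_4fbe7c_an.SD.Base

/-!
Project FC (MP_4fbe7c_an): fast competitors die out; two arbitrary slow species and any number of
fast ones.  Definitions and the statements of all modules.
Proofs on paper: `Pool/Agent/Lib/MP_4fbe7c_an/FC/Paper.md`.
-/

set_option autoImplicit false

open Set

namespace Pool.Agent.Lib.MP_4fbe7c_an.FC

open Pool.Agent.Lib.MP_4fbe7c_an.SD

section defs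

variable (L : ℝ) (m : ℝ → ℝ) {N : ℕ} (u v : Fin N → ℝ → ℝ → ℝ)

/-- Species `i` is present: positive for positive times. -/
def Pres (i : Fin N) : Prop := ∀ t, 0 < t → ∀ x ∈ Icc 0 L, 0 < u i t x

/-- Species `i` is absent. -/
def Absent (i : Fin N) : Prop := ∀ t, 0 ≤ t → ∀ x ∈ Icc 0 L, u i t x = 0

/-- Species `i` decays exponentially, uniformly in space. -/
def Decays (i : Fin N) : Prop :=
  ∃ c C T : ℝ, 0 < c ∧ ∀ t, T ≤ t → ∀ x ∈ Icc 0 L, u i t x ≤ C * Real.exp (-(c * t))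

/-- Total mass. -/
noncomputable def mass (t : ℝ) : ℝ := ∫ x in (0)..L, ∑ k, u k t x

/-- Integral of the square of the total density. -/
noncomputable def U2 (t : ℝ) : ℝ := ∫ x in (0)..L, (∑ k, u k t x) ^ 2

/-- Integral of the growth rate `R = m - U`. -/
noncomputable def R1 (t : ℝ) : ℝ := ∫ x in (0)..L, (m x - ∑ k, u k t x)

/-- Integral of `R ^ 2`. -/
noncomputable def R2 (t : ℝ) : ℝ := ∫ x in (0)..L, (m x - ∑ k, u k t x) ^ 2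

/-- Integral of `log u_i`. -/
noncomputable def lg (i : Fin N) (t : ℝ) : ℝ := ∫ x in (0)..L, Real.log (u i t x)

/-- Integral of `|∂_x log u_i| ^ 2`. -/
noncomputable def yy (i : Fin N) (t : ℝ) : ℝ := ∫ x in (0)..L, (v i t x / u i t x) ^ 2

end defs

/-- The standing hypotheses. -/
structure Ctx (L M : ℝ) (m : ℝ → ℝ) {N : ℕ} (d : Fin N → ℝ) (u v w : Fin N → ℝ → ℝ → ℝ) :
    Prop where
  hL : 0 < L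
  hM0 : 0 < M
  hm : ContinuousOn m (Icc 0 L)
  hM : ∀ x ∈ Icc 0 L, |m x| ≤ M
  hd : ∀ i, 0 < d i
  sol : Sol L m d u v w

/-- A test function `ψ`, with a solution `Ψ` of `Ψ'' = ψ` (Neumann conditions for both). -/
structure Test (L P q : ℝ) (m ψ ψ' ψ'' Ψ Ψ' : ℝ → ℝ) : Prop where
  d1 : DerivOn L ψ ψ'
  d2 : DerivOn L ψ' ψ''
  c2 : ContinuousOn ψ'' (Icc 0 L)
  b0 : ψ' 0 = 0
  bL : ψ' L = 0
  D1 : DerivOn L Ψ Ψ'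
  D2 : DerivOn L Ψ' ψ
  B0 : Ψ' 0 = 0
  BL : Ψ' L = 0
  bd : ∀ x ∈ Icc 0 L, |ψ x| ≤ P ∧ |ψ' x| ≤ P ∧ |Ψ x| ≤ P
  hq : ∫ x in (0)..L, m x * ψ x = q

/-! ### A priori facts -/

/-- PA: every species is present or absent. -/
def PaStatement : Prop :=
  ∀ (L M : ℝ) (m : ℝ → ℝ) (N : ℕ) (d : Fin N → ℝ) (u v w : Fin N → ℝ → ℝ → ℝ),
    Ctx L M m d u v w → ∀ i, (Pres L u i ∨ Absent L u i) ∧
      ((∃ x ∈ Icc 0 L, 0 < u i 0 x) → Pres L u i)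

/-- YDER: time derivative of `∫ h_x ^ 2` without mixed derivatives. -/
def YDerStatement : Prop :=
  ∀ (L : ℝ) (h h1 h2 ht : ℝ → ℝ → ℝ), 0 < L →
    ContinuousOn (fun p : ℝ × ℝ => h p.1 p.2) (Ioi 0 ×ˢ Icc 0 L) →
    ContinuousOn (fun p : ℝ × ℝ => h1 p.1 p.2) (Ioi 0 ×ˢ Icc 0 L) →
    ContinuousOn (fun p : ℝ × ℝ => h2 p.1 p.2) (Ioi 0 ×ˢ Icc 0 L) →
    ContinuousOn (fun p : ℝ × ℝ => ht p.1 p.2) (Ioi 0 ×ˢ Icc 0 L) →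
    (∀ t, 0 < t → DerivOn L (h t) (h1 t)) → (∀ t, 0 < t → DerivOn L (h1 t) (h2 t)) →
    (∀ t, 0 < t → h1 t 0 = 0 ∧ h1 t L = 0) →
    (∀ t, 0 < t → ∀ x ∈ Icc 0 L, HasDerivAt (fun s => h s x) (ht t x) t) →
    ∀ t, 0 < t → HasDerivAt (fun t => ∫ x in (0)..L, h1 t x ^ 2)
      (-(2 * ∫ x in (0)..L, h2 t x * ht t x)) t

/-- YINE: the inequality for `yy`. -/
def YIneStatement : Prop :=
  ∀ (L M : ℝ) (m : ℝ → ℝ) (N : ℕ) (d : Fin N → ℝ) (u v w : Fin N → ℝ → ℝ → ℝ) (i : Fin N),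
    Ctx L M m d u v w → Pres L u i → ∀ t, 0 < t → ∃ y' : ℝ, HasDerivAt (yy L u v i) y' t ∧
      y' ≤ -(d i / L ^ 2 * yy L u v i t) + R2 L m u t / d i

/-- LGD: derivative of `∫ log u_i`. -/
def LgdStatement : Prop :=
  ∀ (L M : ℝ) (m : ℝ → ℝ) (N : ℕ) (d : Fin N → ℝ) (u v w : Fin N → ℝ → ℝ → ℝ) (i : Fin N),
    Ctx L M m d u v w → Pres L u i → ∀ t, 0 < t →
      HasDerivAt (lg L u i) (d i * yy L u v i t + R1 L m u t) t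

/-- MASS: bounds from the equation for the total mass. -/
def MassStatement : Prop :=
  ∀ (L M : ℝ) (m : ℝ → ℝ) (N : ℕ) (d : Fin N → ℝ) (u v w : Fin N → ℝ → ℝ → ℝ),
    Ctx L M m d u v w → (∀ t, 0 ≤ t → 0 ≤ mass L u t) ∧
      ∃ T : ℝ, 0 < T ∧ ∀ t, T ≤ t → mass L u t ≤ 2 * M * L ∧ ∃ I' : ℝ,
        HasDerivAt (mass L u) I' t ∧ U2 L u t ≤ -I' + 2 * M ^ 2 * L ∧
          R2 L m u t ≤ -(2 * I') + 6 * M ^ 2 * L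

/-- SUPB: every species is eventually at most `M + 1`. -/
def SupBStatement : Prop :=
  ∀ (L M : ℝ) (m : ℝ → ℝ) (N : ℕ) (d : Fin N → ℝ) (u v w : Fin N → ℝ → ℝ → ℝ),
    Ctx L M m d u v w → ∃ T : ℝ, 0 < T ∧ ∀ t, T ≤ t → ∀ x ∈ Icc 0 L, ∀ i, u i t x ≤ M + 1

/-- YBD: `yy` is bounded. -/
def YBdStatement : Prop :=
  ∀ (L M : ℝ) (m : ℝ → ℝ) (N : ℕ) (d : Fin N → ℝ) (u v w : Fin N → ℝ → ℝ → ℝ) (i : Fin N),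
    Ctx L M m d u v w → Pres L u i → ∃ K T : ℝ, 0 < T ∧ ∀ t, T ≤ t → yy L u v i t ≤ K

/-! ### Test functions -/

/-- TST: `∫ f ψ` is controlled by `∫ (f'/f) ^ 2` if `∫ ψ = 0`. -/
def TstStatement : Prop :=
  ∀ (L B P κ : ℝ) (f f' ψ : ℝ → ℝ), 0 < L → 0 < B → 0 < κ → DerivOn L f f' →
    ContinuousOn f' (Icc 0 L) → ContinuousOn ψ (Icc 0 L) → (∀ x ∈ Icc 0 L, 0 < f x ∧ f x ≤ B) →
    (∀ x ∈ Icc 0 L, |ψ x| ≤ P) → ∫ x in (0)..L, ψ x = 0 →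
    |∫ x in (0)..L, f x * ψ x| ≤
      κ + P ^ 2 * B ^ 2 * L ^ 3 / (4 * κ) * ∫ x in (0)..L, (f' x / f x) ^ 2

/-- LINF: linear functionals of a species. -/
def LinFStatement : Prop :=
  ∀ (L M P q : ℝ) (m ψ ψ' ψ'' Ψ Ψ' : ℝ → ℝ) (N : ℕ) (d : Fin N → ℝ)
    (u v w : Fin N → ℝ → ℝ → ℝ) (k : Fin N),
    Ctx L M m d u v w → Test L P q m ψ ψ' ψ'' Ψ Ψ' → ∀ t, 0 < t →
      HasDerivAt (fun t => ∫ x in (0)..L, u k t x * Ψ x)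
        (d k * (∫ x in (0)..L, u k t x * ψ x) +
          ∫ x in (0)..L, u k t x * (m x - ∑ i, u i t x) * Ψ x) t

/-- PSI: test functions exist. -/
def PsiStatement : Prop :=
  ∀ (L : ℝ) (m : ℝ → ℝ), 0 < L → ContinuousOn m (Icc 0 L) →
    (∃ x ∈ Icc 0 L, ∃ y ∈ Icc 0 L, m x ≠ m y) →
    ∃ (P q : ℝ) (ψ ψ' ψ'' Ψ Ψ' : ℝ → ℝ), 0 < P ∧ 0 < q ∧ Test L P q m ψ ψ' ψ'' Ψ Ψ'

/-- FET: `∫ R ψ` from the equation of `log u_i`. -/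
def FetStatement : Prop :=
  ∀ (L M P q : ℝ) (m ψ ψ' ψ'' Ψ Ψ' : ℝ → ℝ) (N : ℕ) (d : Fin N → ℝ)
    (u v w : Fin N → ℝ → ℝ → ℝ) (i : Fin N),
    Ctx L M m d u v w → Test L P q m ψ ψ' ψ'' Ψ Ψ' → 0 < P → Pres L u i → ∀ t, 0 < t →
      |∫ x in (0)..L, Real.log (u i t x) * ψ x| ≤ P * L * (1 + L * yy L u v i t) ∧
      ∃ F' : ℝ, HasDerivAt (fun t => ∫ x in (0)..L, Real.log (u i t x) * ψ x) F' t ∧
        ∀ κ : ℝ, 0 < κ → ∫ x in (0)..L, (m x - ∑ k, u k t x) * ψ x ≤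
          F' + κ + (d i * P + (d i * P) ^ 2 * L / (4 * κ)) * yy L u v i t

/-! ### Small rates -/

/-- THT: bounds for the steady state which do not depend on the rate. -/
def ThtStatement : Prop :=
  ∀ (L m₀ Λ d : ℝ) (m m' θ θ' θ'' : ℝ → ℝ), 0 < L → 0 < m₀ → 0 < d → DerivOn L m m' →
    ContinuousOn m' (Icc 0 L) → (∀ x ∈ Icc 0 L, m₀ ≤ m x) → ∫ x in (0)..L, m' x ^ 2 ≤ Λ →
    Steady L m d θ θ' θ'' →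
    (∀ x ∈ Icc 0 L, m₀ ≤ θ x) ∧ ∫ x in (0)..L, θ' x ^ 2 ≤ Λ ∧
      ∫ x in (0)..L, (m x - θ x) ^ 2 ≤ d * Λ / (4 * m₀)

/-- VFN: the functional `∫ (U - θ log u)` for `m > 0` of class `C^1`. -/
def VfnStatement : Prop :=
  ∀ (L M m₀ Λ : ℝ) (m m' θ θ' θ'' : ℝ → ℝ) (N : ℕ) (d : Fin N → ℝ)
    (u v w : Fin N → ℝ → ℝ → ℝ) (i₀ : Fin N),
    Ctx L M m d u v w → 0 < m₀ → DerivOn L m m' → ContinuousOn m' (Icc 0 L) →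
    (∀ x ∈ Icc 0 L, m₀ ≤ m x) → ∫ x in (0)..L, m' x ^ 2 ≤ Λ →
    Steady L m (d i₀) θ θ' θ'' → Pres L u i₀ →
    ∃ (E E' : ℝ → ℝ) (K T : ℝ), 0 < T ∧ ∀ t, T ≤ t → HasDerivAt E (E' t) t ∧
      R2 L m u t ≤ -E' t + d i₀ * (Λ / m₀) ∧ -K ≤ E t

/-! ### Extinction of fast species -/

/-- CORE. -/
def CoreStatement : Prop :=
  ∀ (L M P q ρ C₃ D KE KF T : ℝ) (m ψ ψ' ψ'' Ψ Ψ' : ℝ → ℝ) (N : ℕ) (d : Fin N → ℝ)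
    (u v w : Fin N → ℝ → ℝ → ℝ) (i₀ j : Fin N) (S : Finset (Fin N)) (E E' F F' : ℝ → ℝ),
    Ctx L M m d u v w → Test L P q m ψ ψ' ψ'' Ψ Ψ' → 0 < P → 0 < q → 0 ≤ ρ → 0 ≤ C₃ → 0 < D →
    0 < T → i₀ ∈ S → S.card ≤ 2 → (∀ k ∈ S, Pres L u k ∧ d i₀ ≤ d k) →
    (∀ k, k ∉ S → D ≤ d k ∨ Absent L u k) → Pres L u j → D ≤ d j →
    4 * P * (2 * M ^ 2 * L + ρ) ≤ q * D →
    8 * L ^ 2 * ρ * (C₃ + 4 * P ^ 2 * (M + 1) ^ 2 * L ^ 3 / q) ≤ d i₀ * q * D →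
    (∀ t, T ≤ t → mass L u t ≤ 2 * M * L) →
    (∀ t, T ≤ t → ∀ x ∈ Icc 0 L, ∀ k, u k t x ≤ M + 1) →
    (∀ t, T ≤ t → ∃ I' : ℝ, HasDerivAt (mass L u) I' t ∧ U2 L u t ≤ -I' + 2 * M ^ 2 * L) →
    (∀ t, T ≤ t → HasDerivAt E (E' t) t ∧ R2 L m u t ≤ -E' t + ρ ∧ -KE ≤ E t) →
    (∀ t, T ≤ t → HasDerivAt F (F' t) t ∧
      (∫ x in (0)..L, (m x - ∑ k, u k t x) * ψ x) ≤ F' t + q / 4 + C₃ * yy L u v i₀ t ∧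
      F t ≤ KF) →
    ∃ c C : ℝ, 0 < c ∧ ∀ t, T ≤ t → lg L u j t ≤ C - c * t

/-- EXS: from the mean of the logarithm to the supremum. -/
def ExSStatement : Prop :=
  ∀ (L M c C K T : ℝ) (m : ℝ → ℝ) (N : ℕ) (d : Fin N → ℝ) (u v w : Fin N → ℝ → ℝ → ℝ)
    (j : Fin N), Ctx L M m d u v w → Pres L u j → 0 < T → 0 < c →
    (∀ t, T ≤ t → yy L u v j t ≤ K) → (∀ t, T ≤ t → lg L u j t ≤ C - c * t) → Decays L u j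

/-- EXA: extinction, `d i₀` in a compact interval, `m` continuous. -/
def ExAStatement : Prop :=
  ∀ (L M a b : ℝ) (m : ℝ → ℝ), 0 < L → ContinuousOn m (Icc 0 L) →
    (∃ x ∈ Icc 0 L, ∃ y ∈ Icc 0 L, m x ≠ m y) → (∀ x ∈ Icc 0 L, |m x| ≤ M) → 0 < M →
    0 < a → a ≤ b → ∃ D : ℝ, 0 < D ∧
    ∀ (N : ℕ) (d : Fin N → ℝ) (u v w : Fin N → ℝ → ℝ → ℝ) (i₀ j : Fin N) (S : Finset (Fin N)),
      Ctx L M m d u v w → a ≤ d i₀ → d i₀ ≤ b → i₀ ∈ S → S.card ≤ 2 →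
      (∀ k ∈ S, Pres L u k ∧ d i₀ ≤ d k) → (∀ k, k ∉ S → D ≤ d k ∨ Absent L u k) →
      Pres L u j → D ≤ d j → Decays L u j

/-- EXB: extinction, `d i₀` small, `m > 0` of class `C^1`. -/
def ExBStatement : Prop :=
  ∀ (L M : ℝ) (m m' : ℝ → ℝ), 0 < L → DerivOn L m m' → ContinuousOn m' (Icc 0 L) →
    (∃ x ∈ Icc 0 L, ∃ y ∈ Icc 0 L, m x ≠ m y) → (∀ x ∈ Icc 0 L, |m x| ≤ M) → 0 < M →
    (∀ x ∈ Icc 0 L, 0 < m x) → ∃ a D : ℝ, 0 < a ∧ 0 < D ∧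
    ∀ (N : ℕ) (d : Fin N → ℝ) (u v w : Fin N → ℝ → ℝ → ℝ) (i₀ j : Fin N) (S : Finset (Fin N))
      (θ θ' θ'' : ℝ → ℝ),
      Ctx L M m d u v w → Steady L m (d i₀) θ θ' θ'' → d i₀ ≤ a → i₀ ∈ S → S.card ≤ 2 →
      (∀ k ∈ S, Pres L u k ∧ d i₀ ≤ d k) → (∀ k, k ∉ S → D ≤ d k ∨ Absent L u k) →
      Pres L u j → D ≤ d j → Decays L u j

/-! ### Two species and a decaying perturbation -/

/-- The function `G`: `- log p + 2 p - p ^ 2 / 2 - 3 / 2` for `p ≤ 1`, zero for `p ≥ 1`. -/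
noncomputable def Gf (p : ℝ) : ℝ :=
  if p ≤ 1 then -Real.log p + 2 * p - p ^ 2 / 2 - 3 / 2 else 0

/-- The reaction term of the dissipation. -/
noncomputable def Hf (p₁ p₂ : ℝ) : ℝ := (p₁ + p₂ - 1) * (p₂ ^ 2 - (max (1 - p₁) 0) ^ 2)

/-- GFU: elementary facts on `Gf` and `Hf`. -/
def GfuStatement : Prop :=
  (∀ p : ℝ, 0 < p → HasDerivAt Gf (-((max (1 - p) 0) ^ 2 / p)) p) ∧
  (∀ p : ℝ, 0 < p → 0 ≤ Gf p) ∧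
  (∀ p : ℝ, HasDerivAt (fun r : ℝ => (max (1 - r) 0) ^ 2) (-(2 * max (1 - p) 0)) p) ∧
  (∀ p₁ p₂ : ℝ, 0 ≤ p₁ → 0 ≤ p₂ → 0 ≤ Hf p₁ p₂) ∧
  (∀ a p₁ p₂ : ℝ, 0 < a → p₁ ≤ 1 - a → 0 ≤ p₂ → p₂ ≤ a / 2 → a ^ 3 / 4 ≤ Hf p₁ p₂)

/-- The functional. -/
noncomputable def Ff (L : ℝ) (θ : ℝ → ℝ) {N : ℕ} (u : Fin N → ℝ → ℝ → ℝ) (i₀ i₁ : Fin N)
    (t : ℝ) : ℝ :=
  ∫ x in (0)..L, (u i₁ t x ^ 2 / 2 + θ x ^ 2 * Gf (u i₀ t x / θ x))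

/-- The dissipation for the pair `f = u_{i₀}`, `g = u_{i₁}`, `g' = ∂_x g`. -/
noncomputable def Dis (L d₀ d₁ : ℝ) (θ θ' f g g' : ℝ → ℝ) : ℝ :=
  (d₁ - d₀) * (∫ x in (0)..L, g' x ^ 2) +
    d₀ * (∫ x in (0)..L, (g' x - θ' x / θ x * g x) ^ 2) +
    ∫ x in (0)..L, θ x ^ 3 * Hf (f x / θ x) (g x / θ x)

/-- TWO: the functional decreases up to the other species. -/
def TwoStatement : Prop :=
  ∀ (L M : ℝ) (m θ θ' θ'' : ℝ → ℝ) (N : ℕ) (d : Fin N → ℝ) (u v w : Fin N → ℝ → ℝ → ℝ)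
    (i₀ i₁ : Fin N), Ctx L M m d u v w → Steady L m (d i₀) θ θ' θ'' → i₁ ≠ i₀ →
    Pres L u i₀ → ∀ t, 0 < t → 0 ≤ Ff L θ u i₀ i₁ t ∧
      ∃ F' : ℝ, HasDerivAt (Ff L θ u i₀ i₁) F' t ∧
        F' ≤ -Dis L (d i₀) (d i₁) θ θ' (u i₀ t) (u i₁ t) (v i₁ t) +
          ∫ x in (0)..L, θ x ^ 2 * ∑ k ∈ (Finset.univ.erase i₀).erase i₁, u k t x

/-- GTM: a good time. -/
def GtmStatement : Prop :=
  ∀ (F F' G : ℝ → ℝ) (T c C K : ℝ), 0 < c → (∀ t, T ≤ t → HasDerivAt F (F' t) t) →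
    (∀ t, T ≤ t → F' t ≤ -G t + C * Real.exp (-(c * t))) → (∀ t, T ≤ t → -K ≤ F t) →
    ∀ ε T' : ℝ, 0 < ε → ∃ t, T' ≤ t ∧ T ≤ t ∧ G t < ε

/-- CLS: small dissipation means that `g` is small and that `f` is not much smaller than `θ`. -/
def ClsStatement : Prop :=
  ∀ (L d₀ d₁ K ε : ℝ) (m θ θ' θ'' : ℝ → ℝ), 0 < L → ContinuousOn m (Icc 0 L) →
    (∃ x ∈ Icc 0 L, ∃ y ∈ Icc 0 L, m x ≠ m y) → 0 < d₀ → d₀ < d₁ → Steady L m d₀ θ θ' θ'' →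
    0 < ε → ∃ δ : ℝ, 0 < δ ∧ ∀ f f' g g' : ℝ → ℝ, DerivOn L f f' → DerivOn L g g' →
      ContinuousOn f' (Icc 0 L) → ContinuousOn g' (Icc 0 L) →
      (∀ x ∈ Icc 0 L, 0 < f x ∧ 0 ≤ g x) → ∫ x in (0)..L, f' x ^ 2 ≤ K →
      Dis L d₀ d₁ θ θ' f g g' ≤ δ → ∀ x ∈ Icc 0 L, g x < ε ∧ θ x - ε < f x

/-- UPB: the present slowest species is eventually at most `θ + ε`. -/
def UpbStatement : Prop :=
  ∀ (L M : ℝ) (m θ θ' θ'' : ℝ → ℝ) (N : ℕ) (d : Fin N → ℝ) (u v w : Fin N → ℝ → ℝ → ℝ)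
    (i₀ : Fin N), Ctx L M m d u v w → Steady L m (d i₀) θ θ' θ'' →
    ∀ ε : ℝ, 0 < ε → ∃ T : ℝ, 0 < T ∧ ∀ t, T ≤ t → ∀ x ∈ Icc 0 L, u i₀ t x < θ x + ε

/-! ### Local stability -/

/-- A strict supersolution for the invading species. -/
structure Supr (L : ℝ) (m θ : ℝ → ℝ) (D κ : ℝ) (φ φ' φ'' : ℝ → ℝ) : Prop where
  pos : ∀ x ∈ Icc 0 L, 0 < φ x
  d1 : DerivOn L φ φ'
  d2 : DerivOn L φ' φ''
  b0 : φ' 0 = 0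
  bL : φ' L = 0
  neg : ∀ x ∈ Icc 0 L, D * φ'' x + (m x - θ x) * φ x ≤ -(κ * φ x)

/-- PHI: supersolutions exist for every larger rate. -/
def PhiStatement : Prop :=
  ∀ (L d₀ D : ℝ) (m θ θ' θ'' : ℝ → ℝ), 0 < L → ContinuousOn m (Icc 0 L) →
    (∃ x ∈ Icc 0 L, ∃ y ∈ Icc 0 L, m x ≠ m y) → 0 < d₀ → d₀ < D → Steady L m d₀ θ θ' θ'' →
    ∃ (κ : ℝ) (φ φ' φ'' : ℝ → ℝ), 0 < κ ∧ Supr L m θ D κ φ φ' φ''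

/-- LOC: local stability, from any time `s`. -/
def LocStatement : Prop :=
  ∀ (L : ℝ) (m θ θ' θ'' : ℝ → ℝ) (N : ℕ) (d : Fin N → ℝ) (i₀ : Fin N), 0 < L →
    ContinuousOn m (Icc 0 L) → (∀ i, 0 < d i) → Steady L m (d i₀) θ θ' θ'' →
    (∀ j, j ≠ i₀ → ∃ (κ : ℝ) (φ φ' φ'' : ℝ → ℝ), 0 < κ ∧ Supr L m θ (d j) κ φ φ' φ'') →
    ∀ ε : ℝ, 0 < ε → ∃ δ : ℝ, 0 < δ ∧ ∀ (u v w : Fin N → ℝ → ℝ → ℝ) (s : ℝ),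
      Sol L m d u v w → 0 ≤ s →
      (∀ x ∈ Icc 0 L, |u i₀ s x - θ x| < δ ∧ ∀ j, j ≠ i₀ → u j s x < δ) →
      ∀ t, s ≤ t → ∀ x ∈ Icc 0 L, |u i₀ t x - θ x| < ε ∧ ∀ j, j ≠ i₀ → |u j t x| < ε

/-! ### Conclusion -/

/-- FIN: from the extinction of all species but two to global stability. -/
def FinStatement : Prop :=
  ∀ (L M : ℝ) (m θ θ' θ'' : ℝ → ℝ) (N : ℕ) (d : Fin N → ℝ) (i₀ i₁ : Fin N), 0 < L →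
    ContinuousOn m (Icc 0 L) → (∃ x ∈ Icc 0 L, ∃ y ∈ Icc 0 L, m x ≠ m y) → 0 < M →
    (∀ x ∈ Icc 0 L, |m x| ≤ M) → 0 < d i₀ → (∀ j, j ≠ i₀ → d i₀ < d j) → i₁ ≠ i₀ →
    Steady L m (d i₀) θ θ' θ'' →
    (∀ u v w : Fin N → ℝ → ℝ → ℝ, Sol L m d u v w → Pres L u i₀ → ∀ j, j ≠ i₀ → j ≠ i₁ →
      Pres L u j → Decays L u j) →
    Gas L m d i₀ θ

/-- MAINA: `m` continuous, `d i₀` in a compact interval. -/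
def MainAStatement : Prop :=
  ∀ (L a b : ℝ) (m : ℝ → ℝ), 0 < L → ContinuousOn m (Icc 0 L) →
    (∃ x ∈ Icc 0 L, ∃ y ∈ Icc 0 L, m x ≠ m y) → 0 < a → a ≤ b → ∃ D : ℝ, 0 < D ∧
    ∀ (N : ℕ) (d : Fin N → ℝ) (i₀ i₁ : Fin N) (θ θ' θ'' : ℝ → ℝ), i₁ ≠ i₀ →
      a ≤ d i₀ → d i₀ ≤ b → (∀ j, j ≠ i₀ → d i₀ < d j) →
      (∀ j, j ≠ i₀ → j ≠ i₁ → D ≤ d j) → Steady L m (d i₀) θ θ' θ'' → Gas L m d i₀ θ

/-- MAINB: `m > 0` of class `C^1`, no condition on the two slowest rates. -/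
def MainBStatement : Prop :=
  ∀ (L : ℝ) (m m' : ℝ → ℝ), 0 < L → DerivOn L m m' → ContinuousOn m' (Icc 0 L) →
    (∃ x ∈ Icc 0 L, ∃ y ∈ Icc 0 L, m x ≠ m y) → (∀ x ∈ Icc 0 L, 0 < m x) → ∃ D : ℝ, 0 < D ∧
    ∀ (N : ℕ) (d : Fin N → ℝ) (i₀ i₁ : Fin N) (θ θ' θ'' : ℝ → ℝ), i₁ ≠ i₀ →
      0 < d i₀ → (∀ j, j ≠ i₀ → d i₀ < d j) →
      (∀ j, j ≠ i₀ → j ≠ i₁ → D ≤ d j) → Steady L m (d i₀) θ θ' θ'' → Gas L m d i₀ θ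

end Pool.Agent.Lib.MP_4fbe7c_an.FC
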