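import Pool.Agent.Lib.MP_4fbe7c_an.FC.Iface

/-!
Project FC (MP_4fbe7c_an), second stage: extinction of ALL fast species for every number of slow
species (with a constant which does not depend on the number of species), and species with rates
close to the smallest one plus any number of fast species.
Proofs on paper: `Pool/Agent/Lib/MP_4fbe7c_an/FC/Paper2.md`.
-/

set_option autoImplicit false

open Set

namespace Pool.Agent.Lib.MP_4fbe7c_an.FC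

open Pool.Agent.Lib.MP_4fbe7c_an.SD

/-- YBU: `yy` is eventually bounded by a constant which depends only on `L`, `M` and a lower bound
for the rate. -/
def YBuStatement : Prop :=
  ∀ (L M a : ℝ), 0 < a → ∃ K : ℝ, 0 < K ∧ ∀ (m : ℝ → ℝ) (N : ℕ) (d : Fin N → ℝ)
    (u v w : Fin N → ℝ → ℝ → ℝ) (i : Fin N), Ctx L M m d u v w → a ≤ d i → Pres L u i →
    ∃ T : ℝ, 0 < T ∧ ∀ t, T ≤ t → yy L u v i t ≤ K

/-- The geometric mean of species `k`. -/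
noncomputable def gm (L : ℝ) {N : ℕ} (u : Fin N → ℝ → ℝ → ℝ) (k : Fin N) (t : ℝ) : ℝ :=
  Real.exp (lg L u k t / L)

/-- LSE: logarithm of the sum of the geometric means. -/
def LseStatement : Prop :=
  ∀ (L M : ℝ) (m : ℝ → ℝ) (N : ℕ) (d : Fin N → ℝ) (u v w : Fin N → ℝ → ℝ → ℝ)
    (S : Finset (Fin N)), Ctx L M m d u v w → S.Nonempty → (∀ k ∈ S, Pres L u k) →
    ∀ t, 0 < t → L * (∑ k ∈ S, gm L u k t) ≤ mass L u t ∧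
      HasDerivAt (fun t => L * Real.log (∑ k ∈ S, gm L u k t))
        ((∑ k ∈ S, gm L u k t / (∑ i ∈ S, gm L u i t) * (d k * yy L u v k t)) + R1 L m u t) t

/-- TSU: `∫ f ψ` in terms of the geometric mean of `f`. -/
def TsuStatement : Prop :=
  ∀ (L K P κ : ℝ) (f f' ψ : ℝ → ℝ), 0 < L → 0 ≤ K → 0 < κ → DerivOn L f f' →
    ContinuousOn f' (Icc 0 L) → ContinuousOn ψ (Icc 0 L) → (∀ x ∈ Icc 0 L, 0 < f x) →
    (∀ x ∈ Icc 0 L, |ψ x| ≤ P) → ∫ x in (0)..L, ψ x = 0 →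
    ∫ x in (0)..L, (f' x / f x) ^ 2 ≤ K →
    |∫ x in (0)..L, f x * ψ x| ≤ Real.exp ((∫ x in (0)..L, Real.log (f x)) / L) *
      (κ + P ^ 2 * L ^ 3 * Real.exp (2 * (1 + L * K)) / (4 * κ) *
        ∫ x in (0)..L, (f' x / f x) ^ 2)

/-- CORU: the core inequality for any number of slow species. -/
def CorUStatement : Prop :=
  ∀ (L M P q ρ C₃ D K KE KF T : ℝ) (m ψ ψ' ψ'' Ψ Ψ' : ℝ → ℝ) (N : ℕ) (d : Fin N → ℝ)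
    (u v w : Fin N → ℝ → ℝ → ℝ) (i₀ j : Fin N) (S : Finset (Fin N)) (E E' F F' : ℝ → ℝ),
    Ctx L M m d u v w → Test L P q m ψ ψ' ψ'' Ψ Ψ' → 0 < P → 0 < q → 0 ≤ ρ → 0 ≤ C₃ → 0 < D →
    0 ≤ K → 0 < T → i₀ ∈ S → (∀ k ∈ S, Pres L u k ∧ d i₀ ≤ d k) →
    (∀ k ∈ S, ∀ t, T ≤ t → yy L u v k t ≤ K) →
    (∀ k, k ∉ S → D ≤ d k ∨ Absent L u k) → Pres L u j → D ≤ d j →
    4 * P * (2 * M ^ 2 * L + ρ) ≤ q * D →
    8 * L ^ 2 * ρ * (C₃ + 8 * M ^ 2 * P ^ 2 * L ^ 3 * Real.exp (2 * (1 + L * K)) / q) ≤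
      d i₀ * q * D →
    (∀ t, T ≤ t → mass L u t ≤ 2 * M * L) →
    (∀ t, T ≤ t → ∀ x ∈ Icc 0 L, u i₀ t x ≤ M + 1) →
    (∀ t, T ≤ t → ∃ I' : ℝ, HasDerivAt (mass L u) I' t ∧ U2 L u t ≤ -I' + 2 * M ^ 2 * L) →
    (∀ t, T ≤ t → HasDerivAt E (E' t) t ∧ R2 L m u t ≤ -E' t + ρ ∧ -KE ≤ E t) →
    (∀ t, T ≤ t → HasDerivAt F (F' t) t ∧
      (∫ x in (0)..L, (m x - ∑ k, u k t x) * ψ x) ≤ F' t + q / 4 + C₃ * yy L u v i₀ t ∧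
      F t ≤ KF) →
    ∃ c C : ℝ, 0 < c ∧ ∀ t, T ≤ t → lg L u j t ≤ C - c * t

/-- EXE: extinction of all fast species, for every number of species. -/
def ExEStatement : Prop :=
  ∀ (L M a b : ℝ) (m : ℝ → ℝ), 0 < L → ContinuousOn m (Icc 0 L) →
    (∃ x ∈ Icc 0 L, ∃ y ∈ Icc 0 L, m x ≠ m y) → (∀ x ∈ Icc 0 L, |m x| ≤ M) → 0 < M →
    0 < a → a ≤ b → ∃ D : ℝ, 0 < D ∧
    ∀ (N : ℕ) (d : Fin N → ℝ) (u v w : Fin N → ℝ → ℝ → ℝ) (i₀ j : Fin N),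
      Ctx L M m d u v w → a ≤ d i₀ → d i₀ ≤ b → Pres L u i₀ →
      (∀ k, Pres L u k → d i₀ ≤ d k) → Pres L u j → D ≤ d j → Decays L u j

/-- The Lyapunov functional with weights for the species of a set `A`. -/
noncomputable def VA (L : ℝ) {N : ℕ} (i₀ : Fin N) (A : Finset (Fin N)) (θ : ℝ → ℝ)
    (φ : Fin N → ℝ → ℝ) (u : Fin N → ℝ → ℝ → ℝ) (t : ℝ) : ℝ :=
  ∫ x in (0)..L, (θ x * u i₀ t x + (∑ j ∈ A, φ j x * u j t x)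
    - θ x ^ 2 * Real.log (u i₀ t x))

/-- Its dissipation, for the values `f k` of the species. -/
noncomputable def DA (L σ : ℝ) {N : ℕ} (i₀ : Fin N) (A : Finset (Fin N)) (θ : ℝ → ℝ)
    (φ : Fin N → ℝ → ℝ) (f : Fin N → ℝ → ℝ) : ℝ :=
  ∫ x in (0)..L, (σ * (∑ j ∈ A, f j x) +
    (√(θ x) * f i₀ x + (∑ j ∈ A, √(φ j x) * f j x) - √(θ x) ^ 3) ^ 2)

/-- LYA: the functional decreases up to the species outside `A`. -/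
def LyAStatement : Prop :=
  ∀ (L M σ : ℝ) (m θ θ' θ'' : ℝ → ℝ) (N : ℕ) (d : Fin N → ℝ) (u v w : Fin N → ℝ → ℝ → ℝ)
    (i₀ : Fin N) (A : Finset (Fin N)) (φ φ' φ'' : Fin N → ℝ → ℝ), Ctx L M m d u v w →
    Steady L m (d i₀) θ θ' θ'' → i₀ ∉ A → 0 ≤ σ →
    (∀ j ∈ A, Weight L m θ (d j) (φ j) (φ' j) (φ'' j)) →
    (∀ j ∈ A, ∀ x ∈ Icc 0 L,
      d j * φ'' j x + (m x - θ x) * φ j x + θ x * (√(φ j x) - √(θ x)) ^ 2 ≤ -σ) →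
    Pres L u i₀ → (∃ K : ℝ, ∀ t, 0 < t → -K ≤ VA L i₀ A θ φ u t) ∧
    ∀ t, 0 < t → ∃ V' : ℝ, HasDerivAt (VA L i₀ A θ φ u) V' t ∧
      V' ≤ -DA L σ i₀ A θ φ (fun k => u k t) +
        ∫ x in (0)..L, θ x ^ 2 * ∑ k ∈ (Finset.univ.erase i₀) \ A, u k t x

/-- CLA: small dissipation means closeness. -/
def ClAStatement : Prop :=
  ∀ (L σ K ε : ℝ) (θ θ' : ℝ → ℝ) (N : ℕ) (i₀ : Fin N) (A : Finset (Fin N))
    (φ : Fin N → ℝ → ℝ), 0 < L → 0 < σ → 0 < ε → DerivOn L θ θ' → ContinuousOn θ' (Icc 0 L) →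
    (∀ x ∈ Icc 0 L, 0 < θ x) → (∀ j ∈ A, ContinuousOn (φ j) (Icc 0 L)) → i₀ ∉ A →
    ∃ δ : ℝ, 0 < δ ∧ ∀ f f' : Fin N → ℝ → ℝ, (∀ k, DerivOn L (f k) (f' k)) →
      (∀ k, ContinuousOn (f' k) (Icc 0 L)) → (∀ k, ∀ x ∈ Icc 0 L, 0 ≤ f k x) →
      (∀ k, ∫ x in (0)..L, f' k x ^ 2 ≤ K) → DA L σ i₀ A θ φ f ≤ δ →
      ∀ x ∈ Icc 0 L, |f i₀ x - θ x| < ε ∧ ∀ j ∈ A, f j x < ε

/-- FINC: weights for the species of `A`, decay of the others: global stability. -/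
def FinCStatement : Prop :=
  ∀ (L M : ℝ) (m θ θ' θ'' : ℝ → ℝ) (N : ℕ) (d : Fin N → ℝ) (i₀ : Fin N)
    (A : Finset (Fin N)) (φ φ' φ'' : Fin N → ℝ → ℝ), 0 < L →
    ContinuousOn m (Icc 0 L) → (∃ x ∈ Icc 0 L, ∃ y ∈ Icc 0 L, m x ≠ m y) → 0 < M →
    (∀ x ∈ Icc 0 L, |m x| ≤ M) → 0 < d i₀ → (∀ j, j ≠ i₀ → d i₀ < d j) → i₀ ∉ A →
    Steady L m (d i₀) θ θ' θ'' → (∀ j ∈ A, Weight L m θ (d j) (φ j) (φ' j) (φ'' j)) →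
    (∀ u v w : Fin N → ℝ → ℝ → ℝ, Sol L m d u v w → Pres L u i₀ → ∀ j, j ≠ i₀ → j ∉ A →
      Pres L u j → Decays L u j) →
    Gas L m d i₀ θ

/-- MAINC: rates close to `d₁` and any number of fast species. -/
def MainCStatement : Prop :=
  ∀ (L d₁ : ℝ) (m θ θ' θ'' : ℝ → ℝ), 0 < L → ContinuousOn m (Icc 0 L) →
    (∃ x ∈ Icc 0 L, ∃ y ∈ Icc 0 L, m x ≠ m y) → 0 < d₁ → Steady L m d₁ θ θ' θ'' →
    ∃ D₁ D₂ : ℝ, d₁ < D₁ ∧ ∀ (N : ℕ) (d : Fin N → ℝ) (i₀ : Fin N), d i₀ = d₁ →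
      (∀ j, j ≠ i₀ → d₁ < d j ∧ (d j < D₁ ∨ D₂ ≤ d j)) → Gas L m d i₀ θ

end Pool.Agent.Lib.MP_4fbe7c_an.FC
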