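import Pool.Agent.Lib.MP_4fbe7c_an.FC.Main0
import Pool.Agent.Lib.MP_4fbe7c_an.FC.H34.MainAB
import Pool.Agent.Lib.MP_4fbe7c_an.FC.H78.Tsu
import Pool.Agent.Lib.MP_4fbe7c_an.FC.H78.Cla

/-!
Project FC (MP_4fbe7c_an): the main statements, proved.
-/

set_option autoImplicit false

namespace Pool.Agent.Lib.MP_4fbe7c_an.FC

theorem tsu_st : TsuStatement := H78.tsu
theorem cla_st : ClAStatement := H78.cla
theorem coru_st : CorUStatement := H54.coru yine_st lgd_st tsu_st linf_st lse_st
theorem exe_st : ExEStatement :=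
  H74.exe pa_st psi_st mass_st supb_st ybd_st ybu_st fet_st coru_st exs_st
theorem finc_st : FinCStatement :=
  H50.finc pa_st ybd_st supb_st lya_st gtm_st cla_st phi_st loc_st
theorem mainA_theorem : MainAStatement := H34.maina pa_st exa_st fin_st
theorem mainB_theorem : MainBStatement := H34.mainb pa_st exb_st fin_st mainA_theorem
theorem mainC_theorem : MainCStatement := H23.mainc pa_st exe_st finc_st

end Pool.Agent.Lib.MP_4fbe7c_an.FC
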