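import Pool.Agent.Lib.MP_4fbe7c_an.FC.H9.ExB
import Pool.Agent.Lib.MP_4fbe7c_an.FC.H9.Lgd
import Pool.Agent.Lib.MP_4fbe7c_an.FC.H16.PA
import Pool.Agent.Lib.MP_4fbe7c_an.FC.H16.Ybu
import Pool.Agent.Lib.MP_4fbe7c_an.FC.H21.Mass
import Pool.Agent.Lib.MP_4fbe7c_an.FC.H21.SupB
import Pool.Agent.Lib.MP_4fbe7c_an.FC.H21.Tst
import Pool.Agent.Lib.MP_4fbe7c_an.FC.H22.Tht
import Pool.Agent.Lib.MP_4fbe7c_an.FC.H23.MainC
import Pool.Agent.Lib.MP_4fbe7c_an.FC.H30.Psi
import Pool.Agent.Lib.MP_4fbe7c_an.FC.H45.EXS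
import Pool.Agent.Lib.MP_4fbe7c_an.FC.H50.Fet
import Pool.Agent.Lib.MP_4fbe7c_an.FC.H50.Vfn
import Pool.Agent.Lib.MP_4fbe7c_an.FC.H50.Lya
import Pool.Agent.Lib.MP_4fbe7c_an.FC.H50.Finc
import Pool.Agent.Lib.MP_4fbe7c_an.FC.H54.Core
import Pool.Agent.Lib.MP_4fbe7c_an.FC.H54.Coru
import Pool.Agent.Lib.MP_4fbe7c_an.FC.H54.Two
import Pool.Agent.Lib.MP_4fbe7c_an.FC.H65.Gfu
import Pool.Agent.Lib.MP_4fbe7c_an.FC.H65.Gtm
import Pool.Agent.Lib.MP_4fbe7c_an.FC.H70.CLS
import Pool.Agent.Lib.MP_4fbe7c_an.FC.H70.UPB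
import Pool.Agent.Lib.MP_4fbe7c_an.FC.H74.ExE
import Pool.Agent.Lib.MP_4fbe7c_an.FC.H74.Ybd
import Pool.Agent.Lib.MP_4fbe7c_an.FC.H75.ExA
import Pool.Agent.Lib.MP_4fbe7c_an.FC.H75.Lse
import Pool.Agent.Lib.MP_4fbe7c_an.FC.H82.Yder
import Pool.Agent.Lib.MP_4fbe7c_an.FC.H82.Yine
import Pool.Agent.Lib.MP_4fbe7c_an.FC.H92.LINF
import Pool.Agent.Lib.MP_4fbe7c_an.FC.H95.Fin
import Pool.Agent.Lib.MP_4fbe7c_an.FC.H95.Loc
import Pool.Agent.Lib.MP_4fbe7c_an.FC.H95.Phi

/-!
Project FC (MP_4fbe7c_an): the module statements, proved (all but TSU, CLA, MAINA, MAINB).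
-/

set_option autoImplicit false

namespace Pool.Agent.Lib.MP_4fbe7c_an.FC

theorem yder_st : YDerStatement := H82.yder
theorem yine_st : YIneStatement := H82.yine yder_st
theorem lgd_st : LgdStatement := H9.lgd
theorem lse_st : LseStatement := H75.lse lgd_st
theorem pa_st : PaStatement := H16.pa
theorem mass_st : MassStatement := H21.mass
theorem supb_st : SupBStatement := H21.supb
theorem tst_st : TstStatement := H21.tst
theorem linf_st : LinFStatement := H92.linf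
theorem ybd_st : YBdStatement := H74.ybd yine_st mass_st
theorem ybu_st : YBuStatement := H16.ybu yine_st mass_st
theorem psi_st : PsiStatement := H30.psi
theorem fet_st : FetStatement := H50.fet
theorem tht_st : ThtStatement := H22.tht
theorem vfn_st : VfnStatement := H50.vfn tht_st
theorem core_st : CoreStatement := H54.core yine_st lgd_st tst_st linf_st
theorem exs_st : ExSStatement := H45.exs
theorem exa_st : ExAStatement := H75.exa psi_st mass_st supb_st ybd_st fet_st core_st exs_st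
theorem exb_st : ExBStatement := H9.exb psi_st mass_st supb_st ybd_st vfn_st core_st exs_st
theorem gfu_st : GfuStatement := H65.gfu
theorem two_st : TwoStatement := H54.two gfu_st
theorem gtm_st : GtmStatement := H65.gtm
theorem cls_st : ClsStatement := H70.cls gfu_st
theorem upb_st : UpbStatement := H70.upb
theorem phi_st : PhiStatement := H95.phi
theorem loc_st : LocStatement := H95.loc
theorem fin_st : FinStatement :=
  H95.fin pa_st ybd_st supb_st two_st gtm_st cls_st upb_st phi_st loc_st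
theorem lya_st : LyAStatement := H50.lya

end Pool.Agent.Lib.MP_4fbe7c_an.FC
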